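import Pool.Agent.W147.LF.Stm

open Polynomial Pool.Agent.W147.LF

namespace Pool.Agent.W799.LF

theorem tri_add (n m : ℕ) : (n + m) * (n + m - 1) / 2 =
    n * (n - 1) / 2 + m * (m - 1) / 2 + n * m := by
  induction m with
  | zero => simp
  | succ m ih =>
    have h1 := Nat.triangle_succ (n + m)
    have h2 := Nat.triangle_succ m
    rw [show n + (m + 1) = (n + m) + 1 by ring, h1, ih, h2]
    ring

theorem Om_mul {K : Type} [Field K] (v w : K[X]) (hv : v ≠ 0) (hw : w ≠ 0) :
    Om (v * w) = Om v + Om w := by
  unfold Om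
  rw [Multiset.card_eq_card_of_rel (UniqueFactorizationMonoid.factors_mul hv hw),
    Multiset.card_add]

theorem t_Pel (hmL : S_RmulL) (hmR : S_RmulR) (hc : S_Rcongr) (hsw : S_Rswap) (hne : S_Rne)
    (hfr : S_Rfrob) (hRC : S_RC) (hI : S_PelIrr) : S_Pel := by
  intro K _ _ hodd u
  obtain ⟨d, hd⟩ : ∃ d, u.natDegree = d := ⟨_, rfl⟩
  induction d using Nat.strong_induction_on generalizing u with
  | _ d ih =>
  intro hu hsq
  by_cases hunit : IsUnit u
  · have h1 : u = 1 := hu.eq_one_of_isUnit hunit
    subst h1
    have h2 : R (1 : K[X]) (derivative (1 : K[X])) = 1 := by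
      have h3 := hRC K (1 : K[X]) 0
      rw [natDegree_one, pow_zero, C_0] at h3
      rw [derivative_one]
      exact h3
    rw [h2]
    unfold Om
    simp
  · obtain ⟨v, hvm, hvi, hvd⟩ := Polynomial.exists_monic_irreducible_factor u hunit
    obtain ⟨w, rfl⟩ := hvd
    have hwm : w.Monic := hvm.of_mul_monic_left hu
    have hv0 : v ≠ 0 := hvm.ne_zero
    have hw0 : w ≠ 0 := hwm.ne_zero
    obtain ⟨hrel, -, hwsq⟩ := squarefree_mul_iff.1 hsq
    have hcop : IsCoprime v w := hrel.isCoprime
    have hdeg : (v * w).natDegree = v.natDegree + w.natDegree := hvm.natDegree_mul hwm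
    have hvpos : 0 < v.natDegree := hvi.natDegree_pos
    have ihw := ih w.natDegree (by omega) w rfl hwm hwsq
    have hIv := hI K hodd v hvm hvi
    have e1 : R v (derivative (v * w)) = R v (derivative v) * R v w := by
      rw [← hmR K v (derivative v) w]
      apply hc K v
      exact ⟨derivative w, by rw [derivative_mul]; ring⟩
    have e2 : R w (derivative (v * w)) = R w v * R w (derivative w) := by
      rw [← hmR K w v (derivative w)]
      apply hc K w
      exact ⟨derivative v, by rw [derivative_mul]; ring⟩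
    have e3 := hsw K w v hwm hvm
    have hx0 : R v w ≠ 0 := (hne K v w hv0).2 hcop
    have hxq : R v w ^ (2 * hq K) = 1 := by
      obtain ⟨k, hk⟩ := hodd
      have h1 := hfr K v w
      have h2 : 2 * hq K = Fintype.card K - 1 := by
        unfold hq
        omega
      rw [h2]
      have h3 : R v w ^ (Fintype.card K - 1) * R v w = 1 * R v w := by
        rw [← pow_succ, one_mul, show Fintype.card K - 1 + 1 = Fintype.card K by omega, h1]
      exact mul_right_cancel₀ hx0 h3
    rw [hmL K v w _ hv0 hw0, e1, e2, e3, Om_mul v w hv0 hw0, hdeg, tri_add]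
    have hOv : Om v = 1 := UniqueFactorizationMonoid.card_factors_of_irreducible hvi
    rw [hOv]
    have e4 : (R v (derivative v) * R v w *
        ((-1) ^ (w.natDegree * v.natDegree) * R v w * R w (derivative w))) ^ hq K =
        (R v (derivative v) ^ hq K) * (R w (derivative w) ^ hq K) *
          ((-1) ^ (v.natDegree * w.natDegree)) ^ hq K * R v w ^ (2 * hq K) := by
      rw [mul_comm w.natDegree v.natDegree, pow_mul (R v w) 2 (hq K), ← mul_pow, ← mul_pow,
        ← mul_pow]
      congr 1
      ring
    rw [e4, hxq, hIv, ihw]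
    rw [pow_add (-1) (v.natDegree * (v.natDegree - 1) / 2 + w.natDegree * (w.natDegree - 1) / 2),
      pow_add (-1) (v.natDegree * (v.natDegree - 1) / 2), mul_pow, mul_pow]
    ring

end Pool.Agent.W799.LF
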